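import Pool.Agent.Lib_helper37.ExampleNoF

namespace Pool.Agent.Results.MP_f02a84_al.NotResiduallyFinite

open Pool.Agent.DiagramGroups

/-- Negative answer to Q2: there is a finite semigroup presentation `P` and a nonempty word `w`
such that the diagram group `D(P, w)` is finitely generated, has no subgroup isomorphic to
Thompson's group `F`, and is not residually finite. -/
theorem result :
    ∃ (α : Type) (_ : Finite α) (P : SemigroupPresentation α) (w : List α),
      P.rel.Finite ∧ w ≠ [] ∧ Group.FG (DiagramGroup P w) ∧
      ¬ HasSubgroupIsoTo (DiagramGroup P w) ThompsonF ∧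
      ¬ Group.ResiduallyFinite (DiagramGroup P w) := by
  refine ⟨Fin 10, inferInstance, exP, [7, 8], exP_finite, by simp, ex_diagramGroup_fg,
    ex_noF, ?_⟩
  obtain ⟨a, b, t, hab, h1, -⟩ := ex_elements
  exact not_residuallyFinite_of a b t hab h1

end Pool.Agent.Results.MP_f02a84_al.NotResiduallyFinite
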